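import Pool.Agent.Helper97.TN.St

/-!
# Project TN, module G1: functions constant on divisions
-/

set_option autoImplicit false

namespace Pool.Agent.Helper27.TN

open Pool.Agent.Helper97.TN Finset

theorem g1_conj {G : Type} [Group G] [Finite G] (g h : G)
    (hne : fx (G ⧸ Subgroup.zpowers g) h ≠ 0) : ∃ (x : G) (j : ℕ), h = x * g ^ j * x⁻¹ := by
  unfold fx at hne
  have h1 : Nat.card {x : G ⧸ Subgroup.zpowers g // h • x = x} ≠ 0 := by
    intro h0
    apply hne
    rw [h0]
    simp
  have h2 : Nonempty {x : G ⧸ Subgroup.zpowers g // h • x = x} :=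
    (Nat.card_ne_zero.1 h1).1
  obtain ⟨⟨y, hy⟩⟩ := h2
  obtain ⟨x, rfl⟩ := QuotientGroup.mk_surjective y
  rw [MulAction.Quotient.smul_mk, smul_eq_mul, QuotientGroup.eq] at hy
  have h3 : x⁻¹ * h * x ∈ Subgroup.zpowers g := by
    have h4 := Subgroup.inv_mem _ hy
    have h5 : ((h * x)⁻¹ * x)⁻¹ = x⁻¹ * h * x := by group
    rwa [h5] at h4
  rw [← mem_powers_iff_mem_zpowers, Submonoid.mem_powers_iff] at h3
  obtain ⟨j, hj⟩ := h3
  refine ⟨x, j, ?_⟩
  rw [hj]
  group

theorem g1_order {G : Type} [Group G] [Finite G] (g x : G) (j : ℕ) :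
    orderOf (x * g ^ j * x⁻¹) = orderOf g / Nat.gcd (orderOf g) j := by
  have h1 : orderOf (x * g ^ j * x⁻¹) = orderOf (g ^ j) := by
    have := orderOf_injective (MulAut.conj x).toMonoidHom (MulAut.conj x).injective (g ^ j)
    rw [← this]
    rfl
  rw [h1, orderOf_pow]

/-- **G1** -/
theorem hG1 (hG3 : StG3) : StG1 := by
  intro G _ _ P hP
  classical
  have := Fintype.ofFinite G
  obtain ⟨hG3a, -⟩ := hG3 G
  obtain ⟨B, hB⟩ : ∃ B : ℕ, B = Fintype.card G + 1 := ⟨_, rfl⟩
  have hB0 : 0 < B := by omega
  let W : (G → ℝ) → ℕ := fun φ => ∑ h ∈ univ.filter (fun h => φ h ≠ 0), B ^ orderOf h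
  have main : ∀ n, ∀ φ : G → ℝ, Div φ → W φ = n → φ ∈ P := by
    intro n
    induction n using Nat.strong_induction_on with
    | _ n ih =>
    intro φ hφ hn
    by_cases h0 : φ = 0
    · rw [h0]
      exact P.zero_mem
    · have hne : (univ.filter (fun h => φ h ≠ 0)).Nonempty := by
        by_contra hcon
        rw [not_nonempty_iff_eq_empty] at hcon
        apply h0
        funext h
        by_contra hh
        have : h ∈ univ.filter (fun h => φ h ≠ 0) := by
          rw [mem_filter]
          exact ⟨mem_univ _, hh⟩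
        rw [hcon] at this
        exact absurd this (notMem_empty _)
      obtain ⟨g, hg, hmax⟩ := exists_max_image _ (fun h : G => orderOf h) hne
      rw [mem_filter] at hg
      have hφg := hg.2
      have hmax' : ∀ h, φ h ≠ 0 → orderOf h ≤ orderOf g := fun h hh =>
        hmax h (by rw [mem_filter]; exact ⟨mem_univ _, hh⟩)
      let Ω : Type := G ⧸ Subgroup.zpowers g
      have : Fintype Ω := Fintype.ofFinite Ω
      have hΩP : (fun h : G => fx Ω h) ∈ P := hP Ω
      have hΩD : Div (fun h : G => fx Ω h) := hG3a Ω
      have hfg : fx Ω g ≠ 0 := by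
        unfold fx
        have h1 : Nat.card {x : Ω // g • x = x} ≠ 0 := by
          rw [Nat.card_ne_zero]
          refine ⟨⟨⟨((1 : G) : G ⧸ Subgroup.zpowers g), ?_⟩⟩, inferInstance⟩
          show g • ((1 : G) : G ⧸ Subgroup.zpowers g) = _
          rw [MulAction.Quotient.smul_mk, smul_eq_mul, QuotientGroup.eq]
          simp
        exact_mod_cast h1
      have hNpos : 0 < orderOf g := orderOf_pos g
      have hdvd : ∀ h : G, fx Ω h ≠ 0 → orderOf h ≤ orderOf g := by
        intro h hh
        obtain ⟨x, j, rfl⟩ := g1_conj g h hh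
        rw [g1_order]
        exact Nat.div_le_self _ _
      have hsame : ∀ h : G, fx Ω h ≠ 0 → orderOf h = orderOf g → ∀ ψ : G → ℝ, Div ψ → ψ h = ψ g := by
        intro h hh hord ψ hψ
        obtain ⟨x, j, rfl⟩ := g1_conj g h hh
        apply hψ
        rw [g1_order] at hord
        have h1 : Nat.gcd (orderOf g) j ∣ orderOf g := Nat.gcd_dvd_left _ _
        obtain ⟨d, hd⟩ := h1
        have hgpos : 0 < Nat.gcd (orderOf g) j := Nat.gcd_pos_of_pos_left _ hNpos
        have h2 : orderOf g / Nat.gcd (orderOf g) j = d :=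
          Nat.div_eq_of_eq_mul_right hgpos hd
        rw [h2] at hord
        rw [hord] at hd
        have h3 : Nat.gcd (orderOf g) j = 1 := by
          have h4 : Nat.gcd (orderOf g) j * orderOf g = 1 * orderOf g := by
            rw [one_mul]
            exact hd.symm
          exact Nat.eq_of_mul_eq_mul_right hNpos h4
        exact Nat.Coprime.symm h3
      obtain ⟨c, hc⟩ : ∃ c : ℝ, c = φ g / fx Ω g := ⟨_, rfl⟩
      let φ' : G → ℝ := fun h => φ h - c * fx Ω h
      have hφ'D : Div φ' := by
        intro a x m hm
        show φ (x * a ^ m * x⁻¹) - c * fx Ω (x * a ^ m * x⁻¹) = φ a - c * fx Ω a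
        rw [hφ a x m hm]
        have := hΩD a x m hm
        simp only at this
        rw [this]
      have hφ'g : φ' g = 0 := by
        show φ g - c * fx Ω g = 0
        rw [hc]
        field_simp
        ring
      have hkey : ∀ h : G, orderOf g ≤ orderOf h → φ' h ≠ 0 → φ h ≠ 0 ∧ h ≠ g := by
        intro h hord hh
        have hhg : h ≠ g := by
          rintro rfl
          exact hh hφ'g
        refine ⟨fun hφh => ?_, hhg⟩
        by_cases hfx : fx Ω h = 0
        · apply hh
          show φ h - c * fx Ω h = 0
          rw [hφh, hfx]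
          ring
        · have h1 : orderOf h = orderOf g := le_antisymm (hdvd h hfx) hord
          have h2 := hsame h hfx h1 φ hφ
          rw [hφh] at h2
          exact hφg h2.symm
      have hWlt : W φ' < W φ := by
        have e1 : W φ' = ∑ h ∈ (univ.filter (fun h => φ' h ≠ 0)).filter
              (fun h => orderOf g ≤ orderOf h), B ^ orderOf h +
            ∑ h ∈ (univ.filter (fun h => φ' h ≠ 0)).filter
              (fun h => ¬ orderOf g ≤ orderOf h), B ^ orderOf h :=
          (sum_filter_add_sum_filter_not _ _ _).symm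
        have e2 : ∑ h ∈ (univ.filter (fun h => φ' h ≠ 0)).filter
              (fun h => orderOf g ≤ orderOf h), B ^ orderOf h ≤
            ∑ h ∈ (univ.filter (fun h => φ h ≠ 0)).erase g, B ^ orderOf h := by
          refine sum_le_sum_of_subset ?_
          intro h hh
          rw [mem_filter, mem_filter] at hh
          obtain ⟨h1, h2⟩ := hkey h hh.2 hh.1.2
          rw [mem_erase, mem_filter]
          exact ⟨h2, mem_univ _, h1⟩
        have e3 : ∑ h ∈ (univ.filter (fun h => φ' h ≠ 0)).filter
              (fun h => ¬ orderOf g ≤ orderOf h), B ^ orderOf h ≤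
            Fintype.card G * B ^ (orderOf g - 1) := by
          calc ∑ h ∈ (univ.filter (fun h => φ' h ≠ 0)).filter
                (fun h => ¬ orderOf g ≤ orderOf h), B ^ orderOf h
              ≤ ∑ h ∈ (univ.filter (fun h => φ' h ≠ 0)).filter
                (fun h => ¬ orderOf g ≤ orderOf h), B ^ (orderOf g - 1) := by
                refine sum_le_sum fun h hh => ?_
                rw [mem_filter] at hh
                exact Nat.pow_le_pow_right hB0 (by omega)
            _ = _ * B ^ (orderOf g - 1) := by rw [sum_const, smul_eq_mul]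
            _ ≤ Fintype.card G * B ^ (orderOf g - 1) :=
                Nat.mul_le_mul_right _ (card_le_univ _)
        have e4 : W φ = B ^ orderOf g + ∑ h ∈ (univ.filter (fun h => φ h ≠ 0)).erase g,
            B ^ orderOf h := by
          have hgm : g ∈ univ.filter (fun h => φ h ≠ 0) := by
            rw [mem_filter]
            exact ⟨mem_univ _, hφg⟩
          exact (add_sum_erase (univ.filter (fun h => φ h ≠ 0))
            (fun h : G => B ^ orderOf h) hgm).symm
        have e5 : Fintype.card G * B ^ (orderOf g - 1) < B ^ orderOf g := by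
          obtain ⟨N, hN⟩ : ∃ N, orderOf g = N + 1 := ⟨orderOf g - 1, by omega⟩
          rw [hN, Nat.add_sub_cancel, pow_succ, mul_comm (B ^ N)]
          exact Nat.mul_lt_mul_of_pos_right (by omega) (by positivity)
        omega
      have hmem : φ' ∈ P := ih (W φ') (by omega) φ' hφ'D rfl
      have hsum : φ = φ' + c • (fun h : G => fx Ω h) := by
        funext h
        show φ h = (φ h - c * fx Ω h) + c * fx Ω h
        ring
      rw [hsum]
      exact P.add_mem hmem (P.smul_mem c hΩP)
  intro φ hφ
  exact main _ φ hφ rfl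

end Pool.Agent.Helper27.TN
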