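import Pool.Agent.Helper97.TN.St

/-!
# Project TN, module P3: transitive `G`-sets as sets of roots
-/

set_option autoImplicit false

namespace Pool.Agent.Helper27.TN

open Pool.Agent.Helper97.TN NumberField Polynomial

/-- an integral element with a given stabilizer -/
theorem p3_elt (k L : Type) [Field k] [NumberField k] [Field L] [NumberField L] [Algebra k L]
    [IsGalois k L] (H : Subgroup (L ≃ₐ[k] L)) :
    ∃ θ : 𝓞 L, ∀ g : L ≃ₐ[k] L, g (θ : L) = (θ : L) ↔ g ∈ H := by
  let F := IntermediateField.fixedField H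
  let pb := Field.powerBasisOfFiniteOfSeparable k F
  have h1 : ∀ g : L ≃ₐ[k] L, g (pb.gen : L) = (pb.gen : L) ↔ g ∈ H := by
    intro g
    constructor
    · intro hg
      have h2 : (g.toAlgHom.comp F.val) = F.val := by
        apply pb.algHom_ext
        exact hg
      rw [← IntermediateField.fixingSubgroup_fixedField H, IntermediateField.mem_fixingSubgroup_iff]
      intro x hx
      have h3 := DFunLike.congr_fun h2 ⟨x, hx⟩
      exact h3
    · intro hg
      have h2 := (IntermediateField.mem_fixedField_iff H (pb.gen : L)).1 pb.gen.2 g hg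
      exact h2
  have hz : IsAlgebraic ℤ (pb.gen : L) :=
    (IsFractionRing.isAlgebraic_iff ℤ ℚ L).2 (Algebra.IsAlgebraic.isAlgebraic _)
  obtain ⟨y, hy0, hy⟩ := hz.exists_integral_multiple
  refine ⟨⟨y • (pb.gen : L), hy⟩, fun g => ?_⟩
  rw [← h1 g]
  have hy' : (y : L) ≠ 0 := by exact_mod_cast hy0
  show g (y • (pb.gen : L)) = y • (pb.gen : L) ↔ _
  rw [zsmul_eq_mul, map_mul, map_intCast]
  constructor
  · intro h
    exact mul_left_cancel₀ hy' h
  · intro h
    rw [h]

/-- **P3** -/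
theorem hP3 : StP3 := by
  intro k L _ _ _ _ _ _ Ω _ _ _ hne
  classical
  obtain ⟨ω₀⟩ := hne
  obtain ⟨θ₀, hθ₀⟩ := p3_elt k L (MulAction.stabilizer (L ≃ₐ[k] L) ω₀)
  have htr : ∀ ω : Ω, ∃ g : L ≃ₐ[k] L, g • ω₀ = ω := fun ω => MulAction.exists_smul_eq _ ω₀ ω
  choose c hc using htr
  let θ : Ω → 𝓞 L := fun ω => ⟨c ω (θ₀ : L), θ₀.2.map ((c ω).toAlgHom.restrictScalars ℤ)⟩
  have hθ : ∀ ω, (θ ω : L) = c ω (θ₀ : L) := fun ω => rfl
  have hgθ : ∀ (g : L ≃ₐ[k] L) (ω : Ω), g • ω₀ = ω → g (θ₀ : L) = (θ ω : L) := by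
    intro g ω hg
    have h1 : (c ω)⁻¹ * g ∈ MulAction.stabilizer (L ≃ₐ[k] L) ω₀ := by
      rw [MulAction.mem_stabilizer_iff, mul_smul, hg, inv_smul_eq_iff, hc]
    have h2 := (hθ₀ _).2 h1
    rw [hθ]
    have h3 : g (θ₀ : L) = c ω (((c ω)⁻¹ * g) (θ₀ : L)) := by
      rw [← AlgEquiv.mul_apply, mul_inv_cancel_left]
    rw [h3, h2]
  have hinj : Function.Injective θ := by
    intro ω ω' h
    have h1 : c ω (θ₀ : L) = c ω' (θ₀ : L) := by
      rw [← hθ, ← hθ, h]
    have h2 : ((c ω')⁻¹ * c ω) (θ₀ : L) = (θ₀ : L) := by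
      rw [AlgEquiv.mul_apply, h1, ← AlgEquiv.mul_apply, inv_mul_cancel]
      rfl
    have h3 := (hθ₀ _).1 h2
    rw [MulAction.mem_stabilizer_iff, mul_smul, hc, inv_smul_eq_iff, hc] at h3
    exact h3
  have hact : ∀ (g : L ≃ₐ[k] L) (ω : Ω), g (θ ω : L) = (θ (g • ω) : L) := by
    intro g ω
    rw [hθ, ← AlgEquiv.mul_apply]
    apply hgθ
    rw [mul_smul, hc]
  have hint : IsIntegral (𝓞 k) θ₀ := Algebra.IsIntegral.isIntegral θ₀
  have hmp : minpoly k (θ₀ : L) = (minpoly (𝓞 k) θ₀).map (algebraMap (𝓞 k) k) :=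
    minpoly.isIntegrallyClosed_eq_field_fractions k L hint
  refine ⟨θ, minpoly (𝓞 k) θ₀, hinj, hact, minpoly.monic hint, ?_, ?_⟩
  · rw [← hmp]
    exact minpoly.irreducible (Algebra.IsIntegral.isIntegral _)
  · apply Polynomial.map_injective (algebraMap (𝓞 L) L) (FaithfulSMul.algebraMap_injective _ _)
    have e1 : ((minpoly (𝓞 k) θ₀).map (algebraMap (𝓞 k) (𝓞 L))).map (algebraMap (𝓞 L) L) =
        (minpoly k (θ₀ : L)).map (algebraMap k L) := by
      rw [hmp, Polynomial.map_map, Polynomial.map_map, ← IsScalarTower.algebraMap_eq,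
        ← IsScalarTower.algebraMap_eq]
    rw [e1, Polynomial.map_prod]
    have e2 : ∀ ω : Ω, (X - C (θ ω)).map (algebraMap (𝓞 L) L) = X - C (θ ω : L) := by
      intro ω
      rw [Polynomial.map_sub, map_X, map_C]
    simp only [e2]
    have hint' : IsIntegral k (θ₀ : L) := Algebra.IsIntegral.isIntegral _
    have hsp : ((minpoly k (θ₀ : L)).map (algebraMap k L)).Splits :=
      Normal.splits (inferInstance : Normal k L) (θ₀ : L)
    have hmon : ((minpoly k (θ₀ : L)).map (algebraMap k L)).Monic := (minpoly.monic hint').map _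
    have hsep : (minpoly k (θ₀ : L)).Separable := IsGalois.separable k (θ₀ : L)
    have hnodup : ((minpoly k (θ₀ : L)).map (algebraMap k L)).roots.Nodup :=
      Polynomial.nodup_roots hsep.map
    have hroots : ((minpoly k (θ₀ : L)).map (algebraMap k L)).roots =
        (Finset.univ.image (fun ω : Ω => (θ ω : L))).val := by
      rw [Multiset.Nodup.ext hnodup (Finset.nodup _)]
      intro a
      rw [Polynomial.mem_roots hmon.ne_zero, Finset.mem_val, Finset.mem_image, IsRoot.def,
        eval_map_algebraMap]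
      constructor
      · intro ha
        have h1 : minpoly k (θ₀ : L) = minpoly k a :=
          minpoly.eq_of_irreducible_of_monic (minpoly.irreducible hint') ha (minpoly.monic hint')
        obtain ⟨g, hg⟩ := (Normal.minpoly_eq_iff_mem_orbit L).1 h1.symm
        refine ⟨g • ω₀, Finset.mem_univ _, ?_⟩
        rw [← hgθ g _ rfl]
        exact hg
      · rintro ⟨ω, -, rfl⟩
        show (aeval (θ ω : L)) (minpoly k (θ₀ : L)) = 0
        rw [hθ ω]
        have h1 := minpoly.aeval k (c ω (θ₀ : L))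
        rwa [minpoly.algEquiv_eq] at h1
    rw [hsp.eq_prod_roots_of_monic hmon, hroots]
    show (Multiset.map (fun a => X - C a)
      (Finset.univ.image (fun ω : Ω => (θ ω : L))).val).prod = _
    rw [Finset.prod_map_val, Finset.prod_image]
    intro ω _ ω' _ h
    exact hinj (RingOfIntegers.ext h)

end Pool.Agent.Helper27.TN
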