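import Pool.Agent.Helper97.TN.St

/-!
# Project TN, module P5: mean value of a permutation character at the Frobenius elements
-/

set_option autoImplicit false

namespace Pool.Agent.Helper27.TNP5

open NumberField IsDedekindDomain Polynomial Filter Topology
open Pool.Agent.Helper95.TT Pool.Agent.Helper24.TF Pool.Agent.Helper97.TN
open scoped Classical

noncomputable section

theorem wt_nonneg {k : Type} [Field k] [NumberField k] (s : ℝ) (v : Pr k) : 0 ≤ wt s v := by
  unfold wt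
  exact mul_nonneg (Real.log_natCast_nonneg _) (Real.rpow_nonneg (Nat.cast_nonneg _) _)

theorem q_pos {k : Type} [Field k] [NumberField k] (v : Pr k) : 0 < (q v : ℝ) := by
  have h : q v ≠ 0 := by
    unfold q
    rw [Ne, Ideal.absNorm_eq_zero_iff]
    exact v.ne_bot
  exact_mod_cast Nat.pos_of_ne_zero h

theorem wt_cont {k : Type} [Field k] [NumberField k] (v : Pr k) : Continuous (fun s : ℝ => wt s v) := by
  unfold wt
  refine continuous_const.mul ?_
  exact Continuous.rpow continuous_const continuous_neg (fun s => Or.inl (q_pos v).ne')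

theorem summ {k : Type} [Field k] [NumberField k] (hA2 : StA2) (f : Pr k → ℝ) (M : ℝ) (hf : ∀ v, |f v| ≤ M)
    (s : ℝ) (hs : 1 < s) : Summable (fun v : Pr k => f v * wt s v) := by
  refine Summable.of_norm_bounded (g := fun v : Pr k => M * wt s v) (((hA2 k).1 s hs).mul_left M) ?_
  intro v
  rw [Real.norm_eq_abs, abs_mul, abs_of_nonneg (wt_nonneg s v)]
  exact mul_le_mul_of_nonneg_right (hf v) (wt_nonneg s v)

theorem change {k : Type} [Field k] [NumberField k] (hA2 : StA2) (f g : Pr k → ℝ) (M N : ℝ)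
    (hf : ∀ v, |f v| ≤ M) (hg : ∀ v, |g v| ≤ N) (R : Set (Pr k)) (hR : R.Finite) (hfg : ∀ v, v ∉ R → f v = g v)
    (c : ℝ) (h : Tendsto (fun s : ℝ => (s - 1) * ∑' v : Pr k, f v * wt s v) (𝓝[>] 1) (𝓝 c)) :
    Tendsto (fun s : ℝ => (s - 1) * ∑' v : Pr k, g v * wt s v) (𝓝[>] 1) (𝓝 c) := by
  have h2 : Tendsto (fun s : ℝ => (s - 1) * ∑ v ∈ hR.toFinset, (g v - f v) * wt s v) (𝓝[>] 1) (𝓝 0) := by
    have hc : Continuous (fun s : ℝ => (s - 1) * ∑ v ∈ hR.toFinset, (g v - f v) * wt s v) := by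
      refine (continuous_id.sub continuous_const).mul ?_
      exact continuous_finsetSum _ (fun v _ => continuous_const.mul (wt_cont v))
    have := (hc.tendsto 1).mono_left (nhdsWithin_le_nhds (s := Set.Ioi 1))
    simpa using this
  have h3 := h.add h2
  rw [add_zero] at h3
  refine h3.congr' ?_
  filter_upwards [self_mem_nhdsWithin] with s hs
  rw [← mul_add]
  congr 1
  have hs1 : (1 : ℝ) < s := hs
  have e1 := summ hA2 f M hf s hs1
  have e2 := summ hA2 g N hg s hs1
  have e3 : ∑' v : Pr k, (g v - f v) * wt s v = ∑ v ∈ hR.toFinset, (g v - f v) * wt s v := by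
    refine tsum_eq_sum ?_
    intro v hv
    have : v ∉ R := by simpa using hv
    rw [hfg v this, sub_self, zero_mul]
  rw [← e3]
  have e4 : ∑' v : Pr k, (g v - f v) * wt s v = ∑' v : Pr k, g v * wt s v - ∑' v : Pr k, f v * wt s v := by
    rw [← e2.tsum_sub e1]
    refine tsum_congr (fun v => ?_)
    ring
  rw [e4]
  ring

theorem fx_orbits {G : Type} [Group G] (X : Type) [Fintype X] [MulAction G X] (g : G) :
    fx X g = ∑ O : MulAction.orbitRel.Quotient G X, fx O.orbit g := by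
  unfold fx
  rw [← Nat.cast_sum]
  congr 1
  rw [← Nat.card_sigma]
  refine Nat.card_congr ⟨fun x => ⟨Quotient.mk _ x.1, ⟨⟨x.1, ?_⟩, ?_⟩⟩, fun y => ⟨y.2.1.1, ?_⟩, ?_, ?_⟩
  · exact MulAction.orbitRel.Quotient.mem_orbit.2 rfl
  · exact Subtype.ext x.2
  · exact congrArg Subtype.val y.2.2
  · intro x
    rfl
  · rintro ⟨O, ⟨⟨x, hx⟩, h⟩⟩
    have hO : (Quotient.mk _ x : MulAction.orbitRel.Quotient G X) = O := MulAction.orbitRel.Quotient.mem_orbit.1 hx
    subst hO
    rfl

theorem fx_bound {G : Type} [Group G] (X : Type) [Fintype X] [MulAction G X] (g : G) :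
    |fx X g| ≤ (Nat.card X : ℝ) := by
  unfold fx
  rw [abs_of_nonneg (Nat.cast_nonneg _)]
  exact_mod_cast Nat.card_le_card_of_injective (fun x : {x : X // g • x = x} => x.1) Subtype.val_injective

theorem avg_fx {G : Type} [Group G] [Finite G] (X : Type) [Fintype X] [MulAction G X] :
    avg (fun g : G => fx X g) = (Fintype.card (MulAction.orbitRel.Quotient G X) : ℝ) := by
  have : Fintype G := Fintype.ofFinite G
  have hB := MulAction.sum_card_fixedBy_eq_card_orbits_mul_card_group G X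
  unfold avg
  rw [finsum_eq_sum_of_fintype]
  have h1 : ∑ g : G, fx X g = ((∑ g : G, Fintype.card (MulAction.fixedBy X g) : ℕ) : ℝ) := by
    rw [Nat.cast_sum]
    refine Finset.sum_congr rfl (fun g _ => ?_)
    unfold fx
    rw [← Nat.card_eq_fintype_card]
    rfl
  rw [h1, hB, Nat.cast_mul, Nat.card_eq_fintype_card, mul_div_assoc, div_self, mul_one]
  exact_mod_cast Fintype.card_ne_zero

theorem orbit_case {k L : Type} [Field k] [NumberField k] [Field L] [NumberField L] [Algebra k L]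
    [IsGalois k L] (hA2 : StA2) (hP2 : StP2) (hP3 : StP3) (hP4 : StP4) (σ : Pr k → (L ≃ₐ[k] L)) (R : Set (Pr k))
    (hR : R.Finite) (hσ : ∀ v, v ∉ R → IsFrob v (σ v)) (X : Type) [Fintype X] [MulAction (L ≃ₐ[k] L) X]
    [MulAction.IsPretransitive (L ≃ₐ[k] L) X] (hX : Nonempty X) :
    Tendsto (fun s : ℝ => (s - 1) * ∑' v : Pr k, fx X (σ v) * wt s v) (𝓝[>] 1) (𝓝 1) := by
  obtain ⟨θ, P, hinj, hact, hmon, hirr, hprod⟩ := hP3 k L X hX
  obtain ⟨R', hR', hv⟩ := hP4 k L X θ P hinj hact hprod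
  have hRR : (R ∪ R').Finite := hR.union hR'
  have heq : ∀ v, v ∉ R ∪ R' → nr P v = fx X (σ v) := by
    intro v hvR
    rw [Set.mem_union, not_or] at hvR
    exact hv v hvR.2 (σ v) (hσ v hvR.1)
  refine change hA2 (fun v => nr P v) (fun v => fx X (σ v)) ((Nat.card X : ℝ) + ∑ v ∈ hRR.toFinset, |nr P v|)
    (Nat.card X : ℝ) ?_ (fun v => fx_bound X (σ v)) (R ∪ R') hRR heq 1 (hP2 k P hmon hirr)
  intro v
  by_cases h : v ∈ R ∪ R'
  · have h1 : |nr P v| ≤ ∑ v ∈ hRR.toFinset, |nr P v| :=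
      Finset.single_le_sum (f := fun v => |nr P v|) (fun w _ => abs_nonneg _) (by simpa using h)
    have h2 : (0 : ℝ) ≤ (Nat.card X : ℝ) := Nat.cast_nonneg _
    linarith
  · have h1 : (0 : ℝ) ≤ ∑ v ∈ hRR.toFinset, |nr P v| := Finset.sum_nonneg (fun w _ => abs_nonneg _)
    have h2 := fx_bound X (σ v)
    rw [← heq v h] at h2
    linarith

theorem hP5 (hA2 : StA2) (hP2 : StP2) (hP3 : StP3) (hP4 : StP4) : StP5 := by
  intro k L _ _ _ _ _ _ σ R hR hσ X _ _
  rw [avg_fx X]
  have h1 : ∀ O : MulAction.orbitRel.Quotient (L ≃ₐ[k] L) X,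
      Tendsto (fun s : ℝ => (s - 1) * ∑' v : Pr k, fx O.orbit (σ v) * wt s v) (𝓝[>] 1) (𝓝 1) := by
    intro O
    refine orbit_case hA2 hP2 hP3 hP4 σ R hR hσ O.orbit ?_
    exact (MulAction.orbitRel.Quotient.nonempty_orbit O).to_subtype
  have h2 := tendsto_finsetSum (Finset.univ : Finset (MulAction.orbitRel.Quotient (L ≃ₐ[k] L) X))
    (fun O _ => h1 O)
  rw [Finset.sum_const, Finset.card_univ, nsmul_eq_mul, mul_one] at h2
  refine h2.congr' ?_
  filter_upwards [self_mem_nhdsWithin] with s hs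
  have hs1 : (1 : ℝ) < s := hs
  rw [← Finset.mul_sum]
  congr 1
  rw [← Summable.tsum_finsetSum]
  · refine tsum_congr (fun v => ?_)
    rw [fx_orbits X (σ v), Finset.sum_mul]
  · intro O _
    exact summ hA2 (fun v => fx O.orbit (σ v)) (Nat.card O.orbit : ℝ) (fun v => fx_bound O.orbit (σ v)) s hs1

end

end Pool.Agent.Helper27.TNP5
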